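import Pool.Agent.N931.AS.Fin

/-!
Critical bond percolation on `ℤ²` (`p = 1/2`): the exploration path in the plane slit along a half
line, started at the tip of the slit (left bank open, right bank dual-open). Exact integral test
for its lateral excursions.

Coordinates: the vertex `(u,v)` of `ℤ²` sits at `X + iY`, `X = u - v`, `Y = u + v` (rotation by 45
degrees). The column of a point is `X = u - v`, its height `Y = u + v`.
-/

namespace Pool.Agent.Results.MP_fe58d8_pr.ExcursionTest

open MeasureTheory Filter Topology Set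

/-- edges of `ℤ²`: `(u,v,false)` joins `(u,v)` and `(u+1,v)`; `(u,v,true)` joins `(u,v)` and
`(u,v+1)`. -/
abbrev Edge := ℤ × ℤ × Bool

/-- configurations (`true` = open) -/
abbrev Conf := Edge → Bool

/-- `x` and `y` are the two ends of an open edge -/
def OpenAdj (ω : Conf) (x y : ℤ × ℤ) : Prop :=
  (y = (x.1 + 1, x.2) ∧ ω (x.1, x.2, false) = true) ∨
  (x = (y.1 + 1, y.2) ∧ ω (y.1, y.2, false) = true) ∨
  (y = (x.1, x.2 + 1) ∧ ω (x.1, x.2, true) = true) ∨
  (x = (y.1, y.2 + 1) ∧ ω (y.1, y.2, true) = true)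

/-- bond percolation at `p = 1/2`: independent fair coins on the edges -/
noncomputable def perc : Measure Conf :=
  Measure.infinitePi (fun _ : Edge => (PMF.uniformOfFintype Bool).toMeasure)

/-! ## The exploration path -/

/-- A state `(x, d)` of the exploration path: the path passes next to the vertex `x`, which is on
its right, and looks at the edge which leaves `x` in the direction `d`. -/
abbrev State := (ℤ × ℤ) × Fin 4

/-- the four directions, counterclockwise: `0` = right, `1` = up, `2` = left, `3` = down -/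
def vec (d : Fin 4) : ℤ × ℤ :=
  match d with
  | 0 => (1, 0)
  | 1 => (0, 1)
  | 2 => (-1, 0)
  | 3 => (0, -1)

/-- the left bank of the slit: the vertices `(k,k)`, `k ≥ 0` (column `0`, height `≥ 0`) -/
def LeftBank (x : ℤ × ℤ) : Prop := x.1 = x.2 ∧ 0 ≤ x.1

/-- the edges which cross the slit: those between the columns `0` and `1` both ends of which have
height `≥ 0`. They cannot be used: the right bank of the slit is dual-open. -/
def Cut (x y : ℤ × ℤ) : Prop :=
  0 ≤ x.1 + x.2 ∧ 0 ≤ y.1 + y.2 ∧
    ((x.1 - x.2 ≤ 0 ∧ 0 < y.1 - y.2) ∨ (y.1 - y.2 ≤ 0 ∧ 0 < x.1 - x.2))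

open Classical in
/-- One step of the exploration path in the configuration `ω`: if the edge it looks at is open and
does not cross the slit, the path goes along this edge and turns counterclockwise (`d + 1`);
otherwise it turns clockwise around the vertex (`d + 3 = d - 1`). The left bank is open: at a vertex
of the left bank, when the path looks at the slit (`d = 0`), it goes on to the next vertex
`x + (1,1)` of the left bank. -/
noncomputable def step (ω : Conf) (s : State) : State :=
  if LeftBank s.1 ∧ s.2 = 0 then (s.1 + (1, 1), 2)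
  else if OpenAdj ω s.1 (s.1 + vec s.2) ∧ ¬ Cut s.1 (s.1 + vec s.2) then
    (s.1 + vec s.2, s.2 + 1)
  else (s.1, s.2 + 3)

/-- the exploration path: it starts at the tip, at the lowest vertex `(0,0)` of the left bank,
looking down -/
noncomputable def path (ω : Conf) (n : ℕ) : State := (step ω)^[n] ((0, 0), 3)

/-- the column of the vertex on the right of the path -/
def rightCol (s : State) : ℤ := s.1.1 - s.1.2

/-- the column of the dual vertex (centre of a face) on the left of the path, which is
`x + (1/2,1/2)`, `x + (-1/2,1/2)`, `x + (-1/2,-1/2)`, `x + (1/2,-1/2)` for `d = 0, 1, 2, 3` -/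
def leftCol (s : State) : ℤ :=
  match s.2 with
  | 0 => s.1.1 - s.1.2
  | 1 => s.1.1 - s.1.2 - 1
  | 2 => s.1.1 - s.1.2
  | 3 => s.1.1 - s.1.2 + 1

/-- the path reaches the column `b+1` (with its right side) before it reaches the column `-a` (with
its left side) -/
def RightFirst (a b : ℕ) : Set Conf :=
  {ω | ∃ n, (b : ℤ) + 1 ≤ rightCol (path ω n) ∧ ∀ m ≤ n, -(a : ℤ) < leftCol (path ω m)}

/-- the path reaches the column `-a` (with its left side) before it reaches the column `b+1` (with
its right side) -/
def LeftFirst (a b : ℕ) : Set Conf :=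
  {ω | ∃ n, leftCol (path ω n) ≤ -(a : ℤ) ∧ ∀ m ≤ n, rightCol (path ω m) < (b : ℤ) + 1}

/-- Integral test for the lateral excursions of the exploration path. Let `ψ ≥ 1` be nondecreasing.
If the series `Σ 1/(n ψ(n)^(1/3))` converges then, almost surely, for all large `n` the path neither
reaches the column `⌈n ψ(n)⌉ + 1` on the right before the column `-n` on the left, nor the column
`-⌈n ψ(n)⌉` before the column `n + 1`. If the series diverges then, almost surely, the path does
the first for infinitely many `n` and the second for infinitely many `n`. -/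
theorem result (ψ : ℕ → ℝ) (hm : Monotone ψ) (h1 : ∀ n, 1 ≤ ψ n) :
    ((Summable fun n : ℕ => 1 / ((n : ℝ) * ψ n ^ (1 / 3 : ℝ))) →
      ∀ᵐ ω ∂perc, ∀ᶠ n : ℕ in atTop, ω ∉ RightFirst n ⌈(n : ℝ) * ψ n⌉₊ ∧
        ω ∉ LeftFirst ⌈(n : ℝ) * ψ n⌉₊ n) ∧
    ((¬ Summable fun n : ℕ => 1 / ((n : ℝ) * ψ n ^ (1 / 3 : ℝ))) →
      ∀ᵐ ω ∂perc, (∃ᶠ n : ℕ in atTop, ω ∈ RightFirst n ⌈(n : ℝ) * ψ n⌉₊) ∧
        ∃ᶠ n : ℕ in atTop, ω ∈ LeftFirst ⌈(n : ℝ) * ψ n⌉₊ n) := by
  have e : (fun n : ℕ => 1 / ((n : ℝ) * ψ n ^ (1 / 3 : ℝ))) = Pool.Agent.N931.AS.tf ψ := by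
    funext n
    have h2 : 0 ≤ ψ n := zero_le_one.trans (h1 n)
    unfold Pool.Agent.N931.AS.tf
    rw [show (-(1 / 3) : ℝ) = -(1 / 3 : ℝ) by norm_num, Real.rpow_neg h2, one_div, mul_inv]
  rw [e]
  have hr := Pool.Agent.N931.AS.test_right hm h1
  have hl := Pool.Agent.N931.AS.test_left hm h1
  constructor
  · intro hs
    filter_upwards [hr.1 hs, hl.1 hs] with ω k1 k2
    exact k1.and k2
  · intro hs
    filter_upwards [hr.2 hs, hl.2 hs] with ω k1 k2
    exact ⟨k1, k2⟩

end Pool.Agent.Results.MP_fe58d8_pr.ExcursionTest
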